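import Pool.Agent.H16.N3f

namespace Pool.Agent.Results.MP_ac1762_co.Dim

/-- `L` is the line set of a combinatorial `(n_3)` configuration on the points `Fin n`. -/
def IsConfig (n : ℕ) (L : Finset (Finset (Fin n))) : Prop :=
  L.card = n ∧ (∀ l ∈ L, l.card = 3) ∧ (∀ a, (L.filter (fun l => a ∈ l)).card = 3) ∧
    ∀ a b, a ≠ b → (L.filter (fun l => a ∈ l ∧ b ∈ l)).card ≤ 1

/-- `L` has a geometric representation in some Euclidean space whose points have an affine hull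
of dimension `d`. -/
def HasRepDim (n : ℕ) (L : Finset (Finset (Fin n))) (d : ℕ) : Prop :=
  ∃ (m : ℕ) (p : Fin n → EuclideanSpace ℝ (Fin m))
    (ℓ : Finset (Fin n) → AffineSubspace ℝ (EuclideanSpace ℝ (Fin m))),
    Function.Injective p ∧ Set.InjOn ℓ (L : Set (Finset (Fin n))) ∧
    (∀ l ∈ L, (ℓ l : Set (EuclideanSpace ℝ (Fin m))).Nonempty ∧
      Module.finrank ℝ (ℓ l).direction = 1) ∧
    (∀ l ∈ L, ∀ i, p i ∈ ℓ l ↔ i ∈ l) ∧
    Module.finrank ℝ (affineSpan ℝ (Set.range p)).direction = d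

theorem result (n : ℕ) (hn0 : 0 < n) (hn : n ≤ 14) (L : Finset (Finset (Fin n)))
    (hL : IsConfig n L) :
    (∀ d, HasRepDim n L d → d = 2 ∨ d = 3) ∧
      ((∃ d, HasRepDim n L d) →
        IsGreatest {d | HasRepDim n L d} 2 ∨ IsGreatest {d | HasRepDim n L d} 3) := by
  have h : ∀ d, HasRepDim n L d → d = 2 ∨ d = 3 := by
    rintro d ⟨m, p, ℓ, hp, _, hℓ, hinc, rfl⟩
    exact H16.N3.main n hn0 hn L hL.2.1 hL.2.2.1 hL.2.2.2 p hp ℓ (fun l hl => (hℓ l hl).2) hinc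
  refine ⟨h, fun ⟨d, hd⟩ => ?_⟩
  by_cases h3 : HasRepDim n L 3
  · exact Or.inr ⟨h3, fun e he => by rcases h e he with rfl | rfl <;> omega⟩
  · left
    have h2 : ∀ e, HasRepDim n L e → e = 2 := fun e he =>
      (h e he).resolve_right (fun h' => h3 (h' ▸ he))
    exact ⟨h2 d hd ▸ hd, fun e he => (h2 e he).le⟩

end Pool.Agent.Results.MP_ac1762_co.Dim
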